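import Pool.Agent.H23.LC.Targets
import Pool.Agent.Ratios.Contour
import Pool.Agent.H58.MZ.SH
import Pool.Agent.H2.PZ.VV

/-!
Module AF of glb_modules (MP_52e316_nt): an approximate functional equation in mean square.
-/

set_option autoImplicit false

open Complex MeasureTheory Set Filter Topology
open scoped ENNReal

namespace Pool.Agent.H32.GLB

open Pool.Agent.H23.LC

lemma cs2 {α : Type*} [MeasurableSpace α] (μ : Measure α) {f g : α → ℝ≥0∞}
    (hf : AEMeasurable f μ) (hg : AEMeasurable g μ) :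
    (∫⁻ a, f a * g a ∂μ) ^ 2 ≤ (∫⁻ a, f a ^ 2 ∂μ) * ∫⁻ a, g a ^ 2 ∂μ := by
  have h := ENNReal.lintegral_mul_le_Lp_mul_Lq μ Real.HolderConjugate.two_two hf hg
  calc (∫⁻ a, f a * g a ∂μ) ^ 2 ≤ ((∫⁻ a, f a ^ (2:ℝ) ∂μ) ^ (1 / (2:ℝ)) *
        (∫⁻ a, g a ^ (2:ℝ) ∂μ) ^ (1 / (2:ℝ))) ^ 2 := by gcongr; exact h
    _ = _ := by
      rw [mul_pow, ← ENNReal.rpow_natCast, ← ENNReal.rpow_natCast, ← ENNReal.rpow_mul,
        ← ENNReal.rpow_mul]
      norm_num

/-- the sum of the inverse squares -/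
noncomputable def ZS : ℝ := ∑' j : ℕ, ((1 + j : ℝ) ^ 2)⁻¹

lemma ZS_sum : Summable fun j : ℕ => ((1 + j : ℝ) ^ 2)⁻¹ := by
  have h := (summable_nat_add_iff 1).2 (Real.summable_nat_pow_inv (p := 2).2 (by norm_num))
  refine h.congr fun j => ?_
  push_cast
  rw [add_comm]

lemma ZS_nonneg : 0 ≤ ZS := tsum_nonneg fun j => by positivity

lemma cs_sum (x : ℕ → ℝ≥0∞) :
    (∑' j, x j) ^ 2 ≤ ENNReal.ofReal ZS * ∑' j : ℕ, ENNReal.ofReal ((1 + j) ^ 2) * x j ^ 2 := by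
  have h := cs2 (Measure.count : Measure ℕ) (f := fun j => ENNReal.ofReal (1 + j)⁻¹)
    (g := fun j => ENNReal.ofReal (1 + j) * x j)
    (measurable_of_countable _).aemeasurable (measurable_of_countable _).aemeasurable
  rw [lintegral_count, lintegral_count, lintegral_count] at h
  have e1 : ∀ j : ℕ, ENNReal.ofReal (1 + j)⁻¹ * (ENNReal.ofReal (1 + j) * x j) = x j := by
    intro j
    rw [← mul_assoc, ← ENNReal.ofReal_mul (by positivity), inv_mul_cancel₀ (by positivity),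
      ENNReal.ofReal_one, one_mul]
  have e2 : ∑' j : ℕ, ENNReal.ofReal (1 + j)⁻¹ ^ 2 = ENNReal.ofReal ZS := by
    unfold ZS
    rw [ENNReal.ofReal_tsum_of_nonneg (fun j => by positivity) ZS_sum]
    refine tsum_congr fun j => ?_
    rw [← ENNReal.ofReal_pow (by positivity), inv_pow]
  simp only [e1, e2, mul_pow] at h
  refine h.trans_eq ?_
  congr 1
  refine tsum_congr fun j => ?_
  rw [← ENNReal.ofReal_pow (by positivity)]

lemma gauss_int : Integrable (fun v : ℝ => Real.exp (-v ^ 2 / 2)) := by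
  have h := integrable_exp_neg_mul_sq (b := 1 / 2) (by norm_num)
  refine h.congr (Eventually.of_forall fun v => ?_)
  show Real.exp _ = Real.exp _
  congr 1
  ring

/-- the mass of the Gaussian -/
noncomputable def ZG : ℝ := ∫ v : ℝ, Real.exp (-v ^ 2 / 2)

lemma ZG_nonneg : 0 ≤ ZG := integral_nonneg fun _ => (Real.exp_pos _).le

lemma cs_gauss {g : ℝ → ℝ} (hg : Measurable g) (hg0 : ∀ v, 0 ≤ g v) :
    (∫⁻ v : ℝ, ENNReal.ofReal (g v * Real.exp (-v ^ 2 / 2))) ^ 2 ≤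
      ENNReal.ofReal ZG * ∫⁻ v : ℝ, ENNReal.ofReal (g v ^ 2 * Real.exp (-v ^ 2 / 2)) := by
  have h := cs2 (volume : Measure ℝ) (f := fun v => ENNReal.ofReal (Real.exp (-v ^ 2 / 4)))
    (g := fun v => ENNReal.ofReal (g v * Real.exp (-v ^ 2 / 4)))
    (by fun_prop) (by fun_prop)
  have e0 : ∀ v : ℝ, Real.exp (-v ^ 2 / 4) * Real.exp (-v ^ 2 / 4) = Real.exp (-v ^ 2 / 2) := by
    intro v
    rw [← Real.exp_add]
    congr 1
    ring
  have e1 : ∀ v : ℝ, ENNReal.ofReal (Real.exp (-v ^ 2 / 4)) *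
      ENNReal.ofReal (g v * Real.exp (-v ^ 2 / 4)) =
      ENNReal.ofReal (g v * Real.exp (-v ^ 2 / 2)) := by
    intro v
    rw [← ENNReal.ofReal_mul (Real.exp_pos _).le]
    congr 1
    rw [← e0]
    ring
  have e2 : ∫⁻ v : ℝ, ENNReal.ofReal (Real.exp (-v ^ 2 / 4)) ^ 2 = ENNReal.ofReal ZG := by
    unfold ZG
    rw [ofReal_integral_eq_lintegral_ofReal gauss_int
      (Eventually.of_forall fun v => (Real.exp_pos _).le)]
    refine lintegral_congr fun v => ?_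
    rw [← ENNReal.ofReal_pow (Real.exp_pos _).le, sq, e0]
  have e3 : ∀ v : ℝ, ENNReal.ofReal (g v * Real.exp (-v ^ 2 / 4)) ^ 2 =
      ENNReal.ofReal (g v ^ 2 * Real.exp (-v ^ 2 / 2)) := by
    intro v
    rw [← ENNReal.ofReal_pow (mul_nonneg (hg0 v) (Real.exp_pos _).le)]
    congr 1
    rw [mul_pow, sq (Real.exp _), e0]
  simp only [e1, e2, e3] at h
  exact h

/-- exponential growth against a Gaussian -/
lemma exp_gauss (A v : ℝ) : Real.exp (A * |v|) * Real.exp (-v ^ 2 / 2) ≤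
    Real.exp ((|A| + 1) ^ 2) * Real.exp (-(1 * |v|)) := by
  rw [← Real.exp_add, ← Real.exp_add]
  apply Real.exp_le_exp.2
  have h1 : A * |v| ≤ |A| * |v| := mul_le_mul_of_nonneg_right (le_abs_self A) (abs_nonneg v)
  have h2 : v ^ 2 = |v| ^ 2 := (sq_abs v).symm
  rw [h2]
  nlinarith [sq_nonneg (|v| - (|A| + 1)), sq_nonneg (|A| + 1)]

/-- the series of shifted integrals -/
lemma side {κ : ℝ} (hκ : 0 < κ) (hκ1 : κ ≤ 1) {u : ℕ → ℝ} (hu : ∀ j, u j = κ ∨ u j = 1)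
    {k : ℂ → ℂ} {D Y : ℝ} (hD : 0 ≤ D) (hY : 0 < Y)
    (hk : ∀ w : ℂ, κ ≤ w.re → w.re ≤ 1 → DifferentiableAt ℂ k w)
    (hkb : ∀ w : ℂ, κ ≤ w.re → w.re ≤ 1 → ‖k w‖ ≤ D * Y ^ w.re * Real.exp (-w.im ^ 2 / 2))
    {g : ℕ → ℂ → ℂ} (hg : ∀ j, ∀ w : ℂ, κ ≤ w.re → w.re ≤ 1 → DifferentiableAt ℂ (g j) w)
    (hgb : ∀ j, ∃ C A : ℝ, ∀ w : ℂ, κ ≤ w.re → w.re ≤ 1 → ‖g j w‖ ≤ C * Real.exp (A * |w.im|))
    {c : ℕ → ℝ} (hc : Summable c) {A : ℝ}
    (hgc : ∀ j, ∀ w : ℂ, w.re = 1 → ‖g j w‖ ≤ c j * Real.exp (A * |w.im|)) :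
    ENNReal.ofReal (‖∫ v : ℝ, (∑' j, g j (1 + v * I)) * k (1 + v * I)‖ ^ 2) ≤
      ENNReal.ofReal (ZS * ZG * D ^ 2) * ∑' j : ℕ, ENNReal.ofReal ((1 + j) ^ 2 * Y ^ (2 * u j)) *
        ∫⁻ v : ℝ, ENNReal.ofReal (‖g j (u j + v * I)‖ ^ 2 * Real.exp (-v ^ 2 / 2)) := by
  have hc0 : ∀ j, 0 ≤ c j := by
    intro j
    have h := (norm_nonneg _).trans (hgc j 1 (by simp))
    simpa using h
  have huκ : ∀ j, κ ≤ u j := fun j => by rcases hu j with h | h <;> rw [h]; exact hκ1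
  have hu1 : ∀ j, u j ≤ 1 := fun j => by rcases hu j with h | h <;> rw [h]; exact hκ1
  -- continuity on the lines
  have hline : ∀ (f : ℂ → ℂ) (b : ℝ), κ ≤ b → b ≤ 1 →
      (∀ w : ℂ, κ ≤ w.re → w.re ≤ 1 → DifferentiableAt ℂ f w) →
      Continuous fun v : ℝ => f (b + v * I) := by
    intro f b h1 h2 hf
    rw [continuous_iff_continuousAt]
    intro v
    exact ContinuousAt.comp (f := fun v : ℝ => (b : ℂ) + v * I)
      (hf _ (by simpa using h1) (by simpa using h2)).continuousAt (by fun_prop)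
  -- the integrals over the line `re = 1`
  have hb1 : ∀ j, ∀ v : ℝ, ‖g j (1 + v * I) * k (1 + v * I)‖ ≤
      c j * ((D * Y) * (Real.exp ((|A| + 1) ^ 2) * Real.exp (-(1 * |v|)))) := by
    intro j v
    rw [norm_mul]
    have h1 := hgc j (1 + v * I) (by simp)
    have h2 := hkb (1 + v * I) (by simpa using hκ1) (by simp)
    have e1 : ((1 : ℂ) + v * I).im = v := by simp
    have e2 : ((1 : ℂ) + v * I).re = 1 := by simp
    rw [e1] at h1
    rw [e1, e2, Real.rpow_one] at h2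
    calc ‖g j (1 + v * I)‖ * ‖k (1 + v * I)‖
        ≤ (c j * Real.exp (A * |v|)) * (D * Y * Real.exp (-v ^ 2 / 2)) :=
          mul_le_mul h1 h2 (norm_nonneg _) (mul_nonneg (hc0 j) (Real.exp_pos _).le)
      _ = c j * ((D * Y) * (Real.exp (A * |v|) * Real.exp (-v ^ 2 / 2))) := by ring
      _ ≤ _ := by
        refine mul_le_mul_of_nonneg_left (mul_le_mul_of_nonneg_left (exp_gauss A v) ?_) (hc0 j)
        positivity
  have hI0 : Integrable fun v : ℝ =>
      (D * Y) * (Real.exp ((|A| + 1) ^ 2) * Real.exp (-(1 * |v|))) :=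
    ((Pool.Agent.Ratios.integrable_exp_neg_mul_abs 1 one_pos).const_mul _).const_mul _
  have hcont1 : ∀ j, Continuous fun v : ℝ => g j (1 + v * I) * k (1 + v * I) := by
    intro j
    have h1 := hline (g j) 1 hκ1 le_rfl (hg j)
    have h2 := hline k 1 hκ1 le_rfl hk
    simp only [ofReal_one] at h1 h2
    exact h1.mul h2
  have hint1 : ∀ j, Integrable fun v : ℝ => g j (1 + v * I) * k (1 + v * I) := fun j =>
    (hI0.const_mul (c j)).mono' (hcont1 j).aestronglyMeasurable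
      (Eventually.of_forall fun v => hb1 j v)
  have hsum1 : Summable fun j => ∫ v : ℝ, ‖g j (1 + v * I) * k (1 + v * I)‖ := by
    refine Summable.of_nonneg_of_le (fun j => integral_nonneg fun v => norm_nonneg _)
      (fun j => ?_) (hc.mul_right (∫ v : ℝ,
        (D * Y) * (Real.exp ((|A| + 1) ^ 2) * Real.exp (-(1 * |v|)))))
    rw [← integral_const_mul]
    exact integral_mono (hint1 j).norm (hI0.const_mul (c j)) fun v => hb1 j v
  have hsw := hasSum_integral_of_summable_integral_norm hint1 hsum1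
  have e1 : ∫ v : ℝ, (∑' j, g j (1 + v * I)) * k (1 + v * I) =
      ∫ v : ℝ, ∑' j, g j (1 + v * I) * k (1 + v * I) := by
    refine integral_congr_ae (Eventually.of_forall fun v => ?_)
    exact tsum_mul_right.symm
  rw [e1, ← hsw.tsum_eq]
  -- the shift
  have hshift : ∀ j, ∫ v : ℝ, g j (1 + v * I) * k (1 + v * I) =
      ∫ v : ℝ, g j (u j + v * I) * k (u j + v * I) := by
    intro j
    obtain ⟨C, A', hC⟩ := hgb j
    have hYm : ∀ x : ℝ, κ ≤ x → x ≤ 1 → Y ^ x ≤ Y + 1 := by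
      intro x h1 h2
      rcases le_total 1 Y with h | h
      · calc Y ^ x ≤ Y ^ (1 : ℝ) := Real.rpow_le_rpow_of_exponent_le h h2
          _ = Y := Real.rpow_one Y
          _ ≤ Y + 1 := by linarith
      · calc Y ^ x ≤ 1 := Real.rpow_le_one hY.le h (by linarith)
          _ ≤ Y + 1 := by linarith
    have h := Pool.Agent.Ratios.integral_vertical_shift (fun w => g j w * k w) (u j) 1 (hu1 j)
      (|C| * (D * (Y + 1) * Real.exp ((|A'| + 1) ^ 2))) 1 one_pos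
      (fun w h1 h2 => (hg j w ((huκ j).trans h1) h2).mul (hk w ((huκ j).trans h1) h2))
      (fun w h1 h2 => by
        have h3 := hC w ((huκ j).trans h1) h2
        have h4 := hkb w ((huκ j).trans h1) h2
        rw [norm_mul]
        calc ‖g j w‖ * ‖k w‖ ≤ (|C| * Real.exp (A' * |w.im|)) *
              (D * (Y + 1) * Real.exp (-w.im ^ 2 / 2)) := by
              refine mul_le_mul (h3.trans ?_) (h4.trans ?_) (norm_nonneg _) (by positivity)
              · exact mul_le_mul_of_nonneg_right (le_abs_self C) (Real.exp_pos _).le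
              · refine mul_le_mul_of_nonneg_right (mul_le_mul_of_nonneg_left
                  (hYm _ ((huκ j).trans h1) h2) hD) (Real.exp_pos _).le
          _ = |C| * (D * (Y + 1)) * (Real.exp (A' * |w.im|) * Real.exp (-w.im ^ 2 / 2)) := by ring
          _ ≤ |C| * (D * (Y + 1)) * (Real.exp ((|A'| + 1) ^ 2) * Real.exp (-(1 * |w.im|))) :=
              mul_le_mul_of_nonneg_left (exp_gauss A' w.im) (by positivity)
          _ = _ := by ring)
    simpa using h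
  simp only [hshift]
  -- the estimate
  have hJ : ∀ j, ‖∫ v : ℝ, g j (u j + v * I) * k (u j + v * I)‖ₑ ≤
      ENNReal.ofReal (D * Y ^ u j) *
        ∫⁻ v : ℝ, ENNReal.ofReal (‖g j (u j + v * I)‖ * Real.exp (-v ^ 2 / 2)) := by
    intro j
    refine (enorm_integral_le_lintegral_enorm _).trans ?_
    rw [← lintegral_const_mul']
    · refine lintegral_mono fun v => ?_
      rw [← ofReal_norm, ← ENNReal.ofReal_mul (by positivity)]
      refine ENNReal.ofReal_le_ofReal ?_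
      rw [norm_mul]
      have h4 := hkb (u j + v * I) (by simpa using huκ j) (by simpa using hu1 j)
      have e1 : ((u j : ℂ) + v * I).im = v := by simp
      have e2 : ((u j : ℂ) + v * I).re = u j := by simp
      rw [e1, e2] at h4
      calc ‖g j (u j + v * I)‖ * ‖k (u j + v * I)‖
          ≤ ‖g j (u j + v * I)‖ * (D * Y ^ u j * Real.exp (-v ^ 2 / 2)) :=
            mul_le_mul_of_nonneg_left h4 (norm_nonneg _)
        _ = _ := by ring
    · exact ENNReal.ofReal_ne_top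
  rw [ENNReal.ofReal_pow (norm_nonneg _), ofReal_norm]
  calc ‖∑' j, ∫ v : ℝ, g j (u j + v * I) * k (u j + v * I)‖ₑ ^ 2
      ≤ (∑' j, ‖∫ v : ℝ, g j (u j + v * I) * k (u j + v * I)‖ₑ) ^ 2 := by
        gcongr
        exact enorm_tsum_le_tsum_enorm
    _ ≤ ENNReal.ofReal ZS * ∑' j : ℕ, ENNReal.ofReal ((1 + j) ^ 2) *
          ‖∫ v : ℝ, g j (u j + v * I) * k (u j + v * I)‖ₑ ^ 2 := cs_sum _
    _ ≤ ENNReal.ofReal ZS * ∑' j : ℕ, ENNReal.ofReal ((1 + j) ^ 2) *
          (ENNReal.ofReal (D ^ 2 * Y ^ (2 * u j)) * (ENNReal.ofReal ZG *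
            ∫⁻ v : ℝ, ENNReal.ofReal (‖g j (u j + v * I)‖ ^ 2 * Real.exp (-v ^ 2 / 2)))) := by
        gcongr with j
        refine (pow_le_pow_left' (hJ j) 2).trans ?_
        rw [mul_pow, ← ENNReal.ofReal_pow (by positivity)]
        have e3 : (D * Y ^ u j) ^ 2 = D ^ 2 * Y ^ (2 * u j) := by
          rw [mul_pow, ← Real.rpow_natCast (Y ^ u j), ← Real.rpow_mul hY.le]
          congr 2
          push_cast
          ring
        rw [e3]
        gcongr
        refine cs_gauss (g := fun v => ‖g j (u j + v * I)‖) ?_ (fun v => norm_nonneg _)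
        exact (hline (g j) (u j) (huκ j) (hu1 j) (hg j)).norm.measurable
    _ = _ := by
        rw [← ENNReal.tsum_mul_left, ← ENNReal.tsum_mul_left]
        refine tsum_congr fun j => ?_
        have hZ1 := ZS_nonneg
        have hZ2 := ZG_nonneg
        rw [← mul_assoc, ← mul_assoc, ← mul_assoc, ← mul_assoc,
          ← ENNReal.ofReal_mul ZS_nonneg, ← ENNReal.ofReal_mul (by positivity),
          ← ENNReal.ofReal_mul (by positivity), ← ENNReal.ofReal_mul (by positivity)]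
        congr 2
        ring

/-- the kernel -/
noncomputable def ker (t X : ℝ) (w : ℂ) : ℂ :=
  (1 / 2 + t * I + w) * (1 / 2 + t * I + w - 1) / ((1 / 2 + t * I) * (1 / 2 + t * I - 1)) *
    (X : ℂ) ^ w * cexp (w ^ 2) / w

lemma s0_bd (t : ℝ) : 1 / 2 ≤ ‖(1 / 2 + t * I : ℂ)‖ ∧ 1 / 2 ≤ ‖(1 / 2 + t * I - 1 : ℂ)‖ := by
  constructor
  · have h := Complex.abs_re_le_norm (1 / 2 + t * I : ℂ)
    have e : (1 / 2 + t * I : ℂ).re = 1 / 2 := by simp
    rw [e, abs_of_pos (by norm_num)] at h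
    exact h
  · have h := Complex.abs_re_le_norm (1 / 2 + t * I - 1 : ℂ)
    have e : (1 / 2 + t * I - 1 : ℂ).re = -(1 / 2) := by
      simp
      norm_num
    rw [e, abs_neg, abs_of_pos (by norm_num)] at h
    exact h

lemma ratio_bd {p w : ℂ} (hp : 1 / 2 ≤ ‖p‖) : ‖p + w‖ ≤ ‖p‖ * (1 + 2 * ‖w‖) := by
  have h := norm_add_le p w
  nlinarith [norm_nonneg w]

lemma exp_sq_bd {w : ℂ} (h : |w.re| ≤ 1) :
    ‖cexp (w ^ 2)‖ ≤ Real.exp 1 * Real.exp (-w.im ^ 2) := by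
  rw [Complex.norm_exp, ← Real.exp_add]
  apply Real.exp_le_exp.2
  have e : (w ^ 2).re = w.re ^ 2 - w.im ^ 2 := by
    rw [sq, Complex.mul_re]
    ring
  rw [e]
  have := (sq_le_one_iff_abs_le_one w.re).2 h
  linarith

lemma poly_gauss (v : ℝ) : (3 + 2 * |v|) ^ 2 * Real.exp (-v ^ 2) ≤ 18 * Real.exp (-v ^ 2 / 2) := by
  have h1 : (3 + 2 * |v|) ^ 2 ≤ 18 * Real.exp (v ^ 2 / 2) := by
    have h2 := Real.add_one_le_exp (v ^ 2 / 2)
    have h3 : v ^ 2 = |v| ^ 2 := (sq_abs v).symm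
    rw [h3] at h2 ⊢
    nlinarith [sq_nonneg (|v| - 3 / 2), sq_nonneg (|v| - 1)]
  calc (3 + 2 * |v|) ^ 2 * Real.exp (-v ^ 2) ≤ 18 * Real.exp (v ^ 2 / 2) * Real.exp (-v ^ 2) :=
        mul_le_mul_of_nonneg_right h1 (Real.exp_pos _).le
    _ = 18 * Real.exp (-v ^ 2 / 2) := by
        rw [mul_assoc, ← Real.exp_add]
        congr 2
        ring

lemma ker_bd {κ : ℝ} (hκ : 0 < κ) (t : ℝ) {X : ℝ} (hX : 0 < X) {w : ℂ} (h1 : κ ≤ |w.re|)
    (h2 : |w.re| ≤ 1) :
    ‖ker t X w‖ ≤ (18 * Real.exp 1 / κ) * X ^ w.re * Real.exp (-w.im ^ 2 / 2) := by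
  obtain ⟨b1, b2⟩ := s0_bd t
  unfold ker
  rw [norm_div, norm_mul, norm_mul, norm_div, norm_mul, norm_mul,
    Complex.norm_cpow_eq_rpow_re_of_pos hX]
  have hw : κ ≤ ‖w‖ := h1.trans (Complex.abs_re_le_norm w)
  have hw2 : ‖w‖ ≤ 1 + |w.im| := (Complex.norm_le_abs_re_add_abs_im w).trans (by linarith)
  have r1 := ratio_bd (w := w) b1
  have r2 := ratio_bd (w := w) b2
  have e : (1 / 2 + t * I - 1 + w : ℂ) = 1 / 2 + t * I + w - 1 := by ring
  rw [e] at r2
  have hq : 0 < ‖(1 / 2 + t * I : ℂ)‖ * ‖(1 / 2 + t * I - 1 : ℂ)‖ := by positivity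
  have r3 : ‖(1 / 2 + t * I + w : ℂ)‖ * ‖(1 / 2 + t * I + w - 1 : ℂ)‖ /
      (‖(1 / 2 + t * I : ℂ)‖ * ‖(1 / 2 + t * I - 1 : ℂ)‖) ≤ (3 + 2 * |w.im|) ^ 2 := by
    rw [div_le_iff₀ hq]
    calc ‖(1 / 2 + t * I + w : ℂ)‖ * ‖(1 / 2 + t * I + w - 1 : ℂ)‖
        ≤ (‖(1 / 2 + t * I : ℂ)‖ * (1 + 2 * ‖w‖)) * (‖(1 / 2 + t * I - 1 : ℂ)‖ * (1 + 2 * ‖w‖)) :=
          mul_le_mul r1 r2 (norm_nonneg _) (by positivity)
      _ = (1 + 2 * ‖w‖) ^ 2 * (‖(1 / 2 + t * I : ℂ)‖ * ‖(1 / 2 + t * I - 1 : ℂ)‖) := by ring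
      _ ≤ _ := by
        refine mul_le_mul_of_nonneg_right (pow_le_pow_left₀ (by positivity) ?_ 2) hq.le
        linarith
  have r4 := exp_sq_bd h2
  have r5 := poly_gauss w.im
  rw [div_le_iff₀ (lt_of_lt_of_le hκ hw)]
  calc ‖(1 / 2 + t * I + w : ℂ)‖ * ‖(1 / 2 + t * I + w - 1 : ℂ)‖ /
        (‖(1 / 2 + t * I : ℂ)‖ * ‖(1 / 2 + t * I - 1 : ℂ)‖) * X ^ w.re * ‖cexp (w ^ 2)‖
      ≤ (3 + 2 * |w.im|) ^ 2 * X ^ w.re * (Real.exp 1 * Real.exp (-w.im ^ 2)) := by
        refine mul_le_mul (mul_le_mul_of_nonneg_right r3 (by positivity)) r4 (norm_nonneg _)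
          (by positivity)
    _ = Real.exp 1 * X ^ w.re * ((3 + 2 * |w.im|) ^ 2 * Real.exp (-w.im ^ 2)) := by ring
    _ ≤ Real.exp 1 * X ^ w.re * (18 * Real.exp (-w.im ^ 2 / 2)) :=
        mul_le_mul_of_nonneg_left r5 (by positivity)
    _ = (18 * Real.exp 1 / κ) * X ^ w.re * Real.exp (-w.im ^ 2 / 2) * κ := by
        field_simp
    _ ≤ _ := mul_le_mul_of_nonneg_left hw (by positivity)

lemma ker_diff (t : ℝ) {X : ℝ} (hX : 0 < X) {w : ℂ} (hw : w ≠ 0) :
    DifferentiableAt ℂ (ker t X) w := by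
  unfold ker
  have h1 : DifferentiableAt ℂ (fun w : ℂ => (X : ℂ) ^ w) w :=
    DifferentiableAt.const_cpow differentiableAt_id (Or.inl (by exact_mod_cast hX.ne'))
  refine DifferentiableAt.div (DifferentiableAt.mul (DifferentiableAt.mul ?_ h1) (by fun_prop))
    differentiableAt_id hw
  fun_prop

lemma rpow_bd {X x : ℝ} (hX : 0 < X) (h : |x| ≤ 1) : X ^ x ≤ X + X⁻¹ := by
  obtain ⟨h1, h2⟩ := abs_le.1 h
  rcases le_total 1 X with h3 | h3
  · calc X ^ x ≤ X ^ (1 : ℝ) := Real.rpow_le_rpow_of_exponent_le h3 h2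
      _ = X := Real.rpow_one X
      _ ≤ X + X⁻¹ := by linarith [inv_pos.2 hX]
  · calc X ^ x ≤ X ^ (-1 : ℝ) := Real.rpow_le_rpow_of_exponent_ge hX h3 h1
      _ = X⁻¹ := Real.rpow_neg_one X
      _ ≤ X + X⁻¹ := by linarith

/-- (AF) the approximate functional equation, with the parentheses which the intended statement
needs: the second sum is outside the integral. -/
def U_AFc : Prop :=
  ∃ C₀ : ℝ, ∀ κ : ℝ, 0 < κ → κ ≤ 1 → ∀ (L E G : ℂ → ℂ) (a a' : ℕ → ℂ → ℂ) (X t : ℝ)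
    (u u' : ℕ → ℝ), 0 < X → (∀ j, u j = κ ∨ u j = 1) → (∀ j, u' j = κ ∨ u' j = 1) →
    Differentiable ℂ E → (∀ s : ℂ, s ≠ 0 → s ≠ 1 → E s = s * (s - 1) * L s) →
    (∃ C A : ℝ, ∀ s : ℂ, |s.re| ≤ 3 → ‖E s‖ ≤ C * Real.exp (A * |s.im|)) →
    (∀ j, Differentiable ℂ (a j)) → (∀ j, Differentiable ℂ (a' j)) →
    (∀ j, ∃ C : ℝ, ∀ s : ℂ, 1 / 2 ≤ s.re → ‖a j s‖ ≤ C ∧ ‖a' j s‖ ≤ C) →
    (∃ c : ℕ → ℝ, Summable c ∧ ∀ j, ∀ s : ℂ, s.re = 3 / 2 → ‖a j s‖ ≤ c j ∧ ‖a' j s‖ ≤ c j) →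
    (∀ s : ℂ, s.re = 3 / 2 → L s = ∑' j, a j s) →
    (∀ s : ℂ, s.re = 3 / 2 → L (1 - s) = G s * ∑' j, a' j s) →
    (∀ s : ℂ, 0 < s.re → DifferentiableAt ℂ G s) →
    (∃ C A : ℝ, ∀ s : ℂ, 1 / 2 ≤ s.re → s.re ≤ 3 / 2 → ‖G s‖ ≤ C * Real.exp (A * |s.im|)) →
    ENNReal.ofReal (‖L (1 / 2 + t * I)‖ ^ 2) ≤ ENNReal.ofReal (C₀ * κ ^ (-2 : ℝ)) *
      ((∑' j : ℕ, ENNReal.ofReal ((1 + j) ^ 2 * X ^ (2 * u j)) * ∫⁻ v : ℝ, ENNReal.ofReal
        (‖a j (1 / 2 + u j + (t + v) * I)‖ ^ 2 * Real.exp (-v ^ 2 / 2))) +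
      ∑' j : ℕ, ENNReal.ofReal ((1 + j) ^ 2 * X ^ (-(2 * u' j))) * ∫⁻ v : ℝ, ENNReal.ofReal
        (‖G (1 / 2 + u' j - (t + v) * I) * a' j (1 / 2 + u' j - (t + v) * I)‖ ^ 2 *
          Real.exp (-v ^ 2 / 2)))

theorem pf_AFc : U_AFc := by
  refine ⟨2 * (ZS * ZG * (18 * Real.exp 1) ^ 2), ?_⟩
  intro κ hκ hκ1 L E G a a' X t u u' hX hu hu' hE hEL hEb ha ha' hab hac hL hL' hG hGb
  obtain ⟨b1, b2⟩ := s0_bd t
  set s₀ : ℂ := 1 / 2 + t * I with hs₀
  have hs0 : s₀ ≠ 0 := fun h => by rw [h, norm_zero] at b1; norm_num at b1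
  have hs1 : s₀ - 1 ≠ 0 := fun h => by rw [h, norm_zero] at b2; norm_num at b2
  have hre : s₀.re = 1 / 2 := by simp [hs₀]
  have him : s₀.im = t := by simp [hs₀]
  have hXc : (X : ℂ) ≠ 0 := by exact_mod_cast hX.ne'
  set F : ℂ → ℂ := fun w => E (s₀ + w) / (s₀ * (s₀ - 1)) * (X : ℂ) ^ w * cexp (w ^ 2) with hF
  have hF0 : F 0 = L s₀ := by
    have hne : s₀ ≠ 1 := fun h => hs1 (by rw [h, sub_self])
    simp only [hF, add_zero, Complex.cpow_zero, mul_one]
    rw [hEL s₀ hs0 hne]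
    simp
    field_simp
  obtain ⟨C, A, hC⟩ := hEb
  -- contour
  have hcon := Pool.Agent.H58.MZ.sh Pool.Agent.H2.PZ.vv F (-1) 1
    (|C| * Real.exp (|A| * |t|) / ‖s₀ * (s₀ - 1)‖ * (X + X⁻¹) *
      (Real.exp 1 * Real.exp ((|A| + 1) ^ 2))) 0 (by simp) (by simp)
    (fun s _ _ => by
      have h1 : DifferentiableAt ℂ (fun w : ℂ => (X : ℂ) ^ w) s :=
        DifferentiableAt.const_cpow differentiableAt_id (Or.inl hXc)
      have h2 : DifferentiableAt ℂ (fun w : ℂ => E (s₀ + w)) s :=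
        (hE.comp (differentiable_id.const_add s₀)).differentiableAt
      exact ((h2.div_const _).mul h1).mul (by fun_prop))
    (fun s h1 h2 => by
      have hab1 : |s.re| ≤ 1 := abs_le.2 ⟨h1, h2⟩
      have e1 : ‖E (s₀ + s)‖ ≤ |C| * Real.exp (|A| * |t|) * Real.exp (|A| * |s.im|) := by
        refine (hC (s₀ + s) ?_).trans ?_
        · rw [Complex.add_re, hre]
          rw [abs_le]
          constructor <;> linarith
        · rw [Complex.add_im, him]
          have h3 : A * |t + s.im| ≤ |A| * |t| + |A| * |s.im| := by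
            calc A * |t + s.im| ≤ |A| * |t + s.im| :=
                  mul_le_mul_of_nonneg_right (le_abs_self A) (abs_nonneg _)
              _ ≤ |A| * (|t| + |s.im|) :=
                  mul_le_mul_of_nonneg_left (abs_add_le _ _) (abs_nonneg A)
              _ = _ := by ring
          calc C * Real.exp (A * |t + s.im|) ≤ |C| * Real.exp (|A| * |t| + |A| * |s.im|) :=
                mul_le_mul (le_abs_self C) (Real.exp_le_exp.2 h3) (Real.exp_pos _).le
                  (abs_nonneg C)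
            _ = _ := by
                rw [Real.exp_add]
                ring
      have e2 := exp_sq_bd hab1
      have e3 : Real.exp (-s.im ^ 2) ≤ Real.exp (-s.im ^ 2 / 2) :=
        Real.exp_le_exp.2 (by nlinarith [sq_nonneg s.im])
      have e4 := rpow_bd hX hab1
      have e5 := exp_gauss |A| s.im
      rw [abs_abs] at e5
      simp only [hF]
      rw [norm_mul, norm_mul, norm_div, Complex.norm_cpow_eq_rpow_re_of_pos hX]
      have hN : 0 ≤ ‖s₀ * (s₀ - 1)‖ := norm_nonneg _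
      calc ‖E (s₀ + s)‖ / ‖s₀ * (s₀ - 1)‖ * X ^ s.re * ‖cexp (s ^ 2)‖
          ≤ (|C| * Real.exp (|A| * |t|) * Real.exp (|A| * |s.im|)) / ‖s₀ * (s₀ - 1)‖ *
              (X + X⁻¹) * (Real.exp 1 * Real.exp (-s.im ^ 2 / 2)) := by
            refine mul_le_mul (mul_le_mul ?_ e4 (by positivity) (by positivity))
              (e2.trans (mul_le_mul_of_nonneg_left e3 (Real.exp_pos _).le)) (norm_nonneg _)
              (by positivity)
            exact div_le_div_of_nonneg_right e1 hN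
        _ = (|C| * Real.exp (|A| * |t|) / ‖s₀ * (s₀ - 1)‖ * (X + X⁻¹) * Real.exp 1) *
              (Real.exp (|A| * |s.im|) * Real.exp (-s.im ^ 2 / 2)) := by ring
        _ ≤ (|C| * Real.exp (|A| * |t|) / ‖s₀ * (s₀ - 1)‖ * (X + X⁻¹) * Real.exp 1) *
              (Real.exp ((|A| + 1) ^ 2) * Real.exp (-(1 * |s.im|))) :=
            mul_le_mul_of_nonneg_left e5 (by positivity)
        _ = _ := by
            rw [one_mul]
            ring)
  rw [hF0] at hcon
  -- the two integrals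
  have i1 : ∫ v : ℝ, F ((1 : ℝ) + v * I) / ((1 : ℝ) + v * I - 0) =
      ∫ v : ℝ, (∑' j, a j (s₀ + (1 + v * I))) * ker t X (1 + v * I) := by
    refine integral_congr_ae (Eventually.of_forall fun v => ?_)
    have hr : (s₀ + (1 + v * I)).re = 3 / 2 := by
      rw [Complex.add_re, hre]
      simp
      norm_num
    have h0 : s₀ + (1 + v * I) ≠ 0 := fun h => by rw [h] at hr; norm_num at hr
    have h1 : s₀ + (1 + v * I) ≠ 1 := fun h => by rw [h] at hr; norm_num at hr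
    simp only [hF, ofReal_one, sub_zero]
    rw [hEL _ h0 h1, hL _ hr]
    unfold ker
    rw [← hs₀]
    ring
  have i2 : ∫ v : ℝ, F ((-1 : ℝ) + v * I) / ((-1 : ℝ) + v * I - 0) =
      ∫ v : ℝ, (∑' j, G (1 - s₀ + (1 + v * I)) * a' j (1 - s₀ + (1 + v * I))) *
        ker t X (-(1 + v * I)) := by
    rw [← integral_neg_eq_self]
    refine integral_congr_ae (Eventually.of_forall fun v => ?_)
    have e : (((-1 : ℝ) : ℂ) + ((-v : ℝ) : ℂ) * I) = -(1 + v * I) := by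
      push_cast
      ring
    have hr : (1 - s₀ + (1 + v * I)).re = 3 / 2 := by
      rw [Complex.add_re, Complex.sub_re, hre]
      simp
      norm_num
    have hr2 : (s₀ + -(1 + v * I)).re = -(1 / 2) := by
      rw [Complex.add_re, hre]
      simp
      norm_num
    have h0 : s₀ + -(1 + v * I) ≠ 0 := fun h => by rw [h] at hr2; norm_num at hr2
    have h1 : s₀ + -(1 + v * I) ≠ 1 := fun h => by rw [h] at hr2; norm_num at hr2
    simp only [hF, e, sub_zero]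
    have h2 := hL' _ hr
    have e2 : 1 - (1 - s₀ + (1 + v * I)) = s₀ + -(1 + v * I) := by ring
    rw [e2] at h2
    rw [hEL _ h0 h1, h2, tsum_mul_left]
    unfold ker
    rw [← hs₀]
    ring
  rw [i1, i2] at hcon
  obtain ⟨c, hc, hcb⟩ := hac
  obtain ⟨CG, AG, hCG⟩ := hGb
  -- growth of `G`
  have hGg : ∀ w : ℂ, κ ≤ w.re → w.re ≤ 1 →
      ‖G (1 - s₀ + w)‖ ≤ |CG| * Real.exp (|AG| * |t|) * Real.exp (|AG| * |w.im|) := by
    intro w h1 h2
    have er : (1 - s₀ + w).re = 1 / 2 + w.re := by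
      rw [Complex.add_re, Complex.sub_re, hre]
      simp
      norm_num
    have ei : (1 - s₀ + w).im = -t + w.im := by
      rw [Complex.add_im, Complex.sub_im, him]
      simp
    refine (hCG (1 - s₀ + w) (by rw [er]; linarith) (by rw [er]; linarith)).trans ?_
    rw [ei]
    have h3 : AG * |-t + w.im| ≤ |AG| * |t| + |AG| * |w.im| := by
      calc AG * |-t + w.im| ≤ |AG| * |-t + w.im| :=
            mul_le_mul_of_nonneg_right (le_abs_self AG) (abs_nonneg _)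
        _ ≤ |AG| * (|-t| + |w.im|) :=
            mul_le_mul_of_nonneg_left (abs_add_le _ _) (abs_nonneg AG)
        _ = _ := by
            rw [abs_neg]
            ring
    calc CG * Real.exp (AG * |-t + w.im|) ≤ |CG| * Real.exp (|AG| * |t| + |AG| * |w.im|) :=
          mul_le_mul (le_abs_self CG) (Real.exp_le_exp.2 h3) (Real.exp_pos _).le (abs_nonneg CG)
      _ = _ := by
          rw [Real.exp_add]
          ring
  have hD : 0 ≤ 18 * Real.exp 1 / κ := by positivity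
  have wne : ∀ w : ℂ, κ ≤ w.re → w ≠ 0 := fun w h h0 => by
    rw [h0] at h
    simp at h
    linarith
  have s1 := side hκ hκ1 hu (k := ker t X) (D := 18 * Real.exp 1 / κ) (Y := X) hD hX
    (fun w h1 _ => ker_diff t hX (wne w h1))
    (fun w h1 h2 => ker_bd hκ t hX (h1.trans (le_abs_self _))
      (abs_le.2 ⟨by linarith, h2⟩))
    (g := fun j w => a j (s₀ + w))
    (fun j w _ _ => ((ha j).comp (differentiable_id.const_add s₀)).differentiableAt)
    (fun j => by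
      obtain ⟨C', hC'⟩ := hab j
      refine ⟨C', 0, fun w h1 h2 => ?_⟩
      rw [zero_mul, Real.exp_zero, mul_one]
      refine (hC' _ ?_).1
      rw [Complex.add_re, hre]
      linarith)
    hc (A := 0) (fun j w hw => by
      rw [zero_mul, Real.exp_zero, mul_one]
      refine (hcb j _ ?_).1
      rw [Complex.add_re, hre, hw]
      norm_num)
  have s2 := side hκ hκ1 hu' (k := fun w => ker t X (-w)) (D := 18 * Real.exp 1 / κ) (Y := X⁻¹)
    hD (inv_pos.2 hX)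
    (fun w h1 _ => by
      have h3 : DifferentiableAt ℂ (ker t X) (-w) := ker_diff t hX (neg_ne_zero.2 (wne w h1))
      exact DifferentiableAt.comp w h3 differentiableAt_id.neg)
    (fun w h1 h2 => by
      have h3 := ker_bd hκ t hX (w := -w) (by
        rw [Complex.neg_re, abs_neg]
        exact h1.trans (le_abs_self _)) (by
        rw [Complex.neg_re, abs_neg]
        exact abs_le.2 ⟨by linarith, h2⟩)
      rw [Complex.neg_re, Complex.neg_im, neg_sq] at h3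
      rw [Real.inv_rpow hX.le, ← Real.rpow_neg hX.le]
      exact h3)
    (g := fun j w => G (1 - s₀ + w) * a' j (1 - s₀ + w))
    (fun j w h1 _ => by
      have er : (1 - s₀ + w).re = 1 / 2 + w.re := by
        rw [Complex.add_re, Complex.sub_re, hre]
        simp
        norm_num
      have h3 : DifferentiableAt ℂ G (1 - s₀ + w) := hG _ (by rw [er]; linarith)
      have h4 : DifferentiableAt ℂ (fun w => 1 - s₀ + w) w := by fun_prop
      exact (DifferentiableAt.comp w h3 h4).mul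
        (DifferentiableAt.comp w (ha' j _) h4))
    (fun j => by
      obtain ⟨C', hC'⟩ := hab j
      refine ⟨|CG| * Real.exp (|AG| * |t|) * C', |AG|, fun w h1 h2 => ?_⟩
      have h3 := hGg w h1 h2
      have h4 : ‖a' j (1 - s₀ + w)‖ ≤ C' := by
        refine (hC' _ ?_).2
        rw [Complex.add_re, Complex.sub_re, hre, Complex.one_re]
        linarith
      rw [norm_mul]
      calc ‖G (1 - s₀ + w)‖ * ‖a' j (1 - s₀ + w)‖
          ≤ (|CG| * Real.exp (|AG| * |t|) * Real.exp (|AG| * |w.im|)) * C' :=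
            mul_le_mul h3 h4 (norm_nonneg _) (by positivity)
        _ = _ := by ring)
    (hc.mul_left (|CG| * Real.exp (|AG| * |t|))) (A := |AG|) (fun j w hw => by
      have h3 := hGg w (by rw [hw]; exact hκ1) hw.le
      have h4 : ‖a' j (1 - s₀ + w)‖ ≤ c j := by
        refine (hcb j _ ?_).2
        rw [Complex.add_re, Complex.sub_re, hre, Complex.one_re, hw]
        norm_num
      rw [norm_mul]
      calc ‖G (1 - s₀ + w)‖ * ‖a' j (1 - s₀ + w)‖
          ≤ (|CG| * Real.exp (|AG| * |t|) * Real.exp (|AG| * |w.im|)) * c j :=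
            mul_le_mul h3 h4 (norm_nonneg _) (by positivity)
        _ = _ := by ring)
  -- the shape of the right hand sides
  set I1 : ℂ := ∫ v : ℝ, (∑' j, a j (s₀ + (1 + v * I))) * ker t X (1 + v * I) with hI1
  set I2 : ℂ := ∫ v : ℝ, (∑' j, G (1 - s₀ + (1 + v * I)) * a' j (1 - s₀ + (1 + v * I))) *
        ker t X (-(1 + v * I)) with hI2
  have t1 : ∀ j, ∫⁻ v : ℝ, ENNReal.ofReal (‖a j (s₀ + (u j + v * I))‖ ^ 2 *
      Real.exp (-v ^ 2 / 2)) = ∫⁻ v : ℝ, ENNReal.ofReal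
        (‖a j (1 / 2 + u j + (t + v) * I)‖ ^ 2 * Real.exp (-v ^ 2 / 2)) := by
    intro j
    refine lintegral_congr fun v => ?_
    have e : s₀ + (u j + v * I) = 1 / 2 + u j + (t + v) * I := by
      rw [hs₀]
      ring
    rw [e]
  have t2 : ∀ j, ∫⁻ v : ℝ, ENNReal.ofReal (‖G (1 - s₀ + (u' j + v * I)) *
      a' j (1 - s₀ + (u' j + v * I))‖ ^ 2 * Real.exp (-v ^ 2 / 2)) =
      ∫⁻ v : ℝ, ENNReal.ofReal (‖G (1 / 2 + u' j - (t + v) * I) *
        a' j (1 / 2 + u' j - (t + v) * I)‖ ^ 2 * Real.exp (-v ^ 2 / 2)) := by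
    intro j
    rw [← lintegral_neg_eq_self]
    refine lintegral_congr fun v => ?_
    have e : 1 - s₀ + (u' j + ((-v : ℝ) : ℂ) * I) = 1 / 2 + u' j - (t + v) * I := by
      rw [hs₀]
      push_cast
      ring
    rw [e, neg_sq]
  have t3 : ∀ j, (X⁻¹) ^ (2 * u' j) = X ^ (-(2 * u' j)) := fun j => by
    rw [Real.inv_rpow hX.le, ← Real.rpow_neg hX.le]
  simp only [t1] at s1
  simp only [t2, t3] at s2
  have hpi := Real.pi_gt_three
  have hn : ‖L s₀‖ ≤ ‖I1‖ + ‖I2‖ := by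
    rw [← hcon]
    have hp : ‖((1 / (2 * Real.pi) : ℝ) : ℂ)‖ ≤ 1 := by
      rw [Complex.norm_real, Real.norm_of_nonneg (by positivity), div_le_one (by positivity)]
      linarith
    refine (norm_sub_le _ _).trans (add_le_add ?_ ?_)
    · rw [norm_mul]
      exact mul_le_of_le_one_left (norm_nonneg _) hp
    · rw [norm_mul]
      exact mul_le_of_le_one_left (norm_nonneg _) hp
  have hn2 : ‖L s₀‖ ^ 2 ≤ 2 * ‖I1‖ ^ 2 + 2 * ‖I2‖ ^ 2 := by
    calc ‖L s₀‖ ^ 2 ≤ (‖I1‖ + ‖I2‖) ^ 2 := pow_le_pow_left₀ (norm_nonneg _) hn 2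
      _ ≤ _ := by nlinarith [sq_nonneg (‖I1‖ - ‖I2‖)]
  have hcst : 2 * (ZS * ZG * (18 * Real.exp 1) ^ 2) * κ ^ (-2 : ℝ) =
      2 * (ZS * ZG * (18 * Real.exp 1 / κ) ^ 2) := by
    have e : κ ^ (-2 : ℝ) = (κ ^ 2)⁻¹ := by
      rw [Real.rpow_neg hκ.le]
      congr 1
      exact_mod_cast Real.rpow_natCast κ 2
    rw [e, div_pow]
    ring
  rw [hcst]
  have hZ1 := ZS_nonneg
  have hZ2 := ZG_nonneg
  calc ENNReal.ofReal (‖L s₀‖ ^ 2) ≤ ENNReal.ofReal (2 * ‖I1‖ ^ 2 + 2 * ‖I2‖ ^ 2) :=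
        ENNReal.ofReal_le_ofReal hn2
    _ = ENNReal.ofReal 2 * (ENNReal.ofReal (‖I1‖ ^ 2) + ENNReal.ofReal (‖I2‖ ^ 2)) := by
        rw [ENNReal.ofReal_add (by positivity) (by positivity), ENNReal.ofReal_mul (by norm_num),
          ENNReal.ofReal_mul (by norm_num), mul_add]
    _ ≤ ENNReal.ofReal 2 * (_ + _) := by
        refine mul_le_mul_right (add_le_add s1 s2) _
    _ = _ := by
        rw [← mul_add, ← mul_assoc, ← ENNReal.ofReal_mul (by norm_num)]

end Pool.Agent.H32.GLB
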